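import Pool.Agent.H32.QC.TargetsL

/-! Row LPFS of qcf_modules: the symbol is trivial at almost all places. -/

set_option autoImplicit false

open NumberField IsDedekindDomain Pool.Agent.H32.QC

namespace Pool.Agent.H44.QCL

theorem val_fin (K : Type) [Field K] [NumberField K] (x : K) (hx : x ≠ 0) :
    {v : FPl K | v.valuation K x ≠ 1}.Finite := by
  have h1 := HeightOneSpectrum.Support.finite (𝓞 K) x
  have h2 := HeightOneSpectrum.Support.finite (𝓞 K) x⁻¹
  refine (h1.union h2).subset fun v hv => ?_
  rcases lt_or_gt_of_ne hv with h | h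
  · right
    show 1 < v.valuation K x⁻¹
    rw [map_inv₀]
    have h0 : v.valuation K x ≠ 0 := (Valuation.ne_zero_iff _).2 hx
    exact (one_lt_inv₀ (zero_lt_iff.2 h0)).2 h
  · left
    exact h

theorem real_fin (K : Type) [Field K] [NumberField K] : Finite (K →+* ℝ) := by
  have hinj : Function.Injective fun φ : K →+* ℝ => (Complex.ofRealHom.comp φ : K →+* ℂ) := by
    intro φ ψ h
    ext x
    have h1 := DFunLike.congr_fun h x
    exact Complex.ofReal_injective h1
  exact Finite.of_injective _ hinj

theorem pf_PFS (hODD : T_ODD) : T_PFS := by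
  intro K _ _ a b ha hb
  have h2 : (2 : K) ≠ 0 := two_ne_zero
  have hf := ((val_fin K 2 h2).union ((val_fin K a ha).union (val_fin K b hb)))
  have hfR := real_fin K
  refine ((hf.image Sum.inl).union (Set.finite_range (Sum.inr : (K →+* ℝ) → Pl K))).subset ?_
  rintro (v | φ) hv
  · left
    refine ⟨v, ?_, rfl⟩
    by_contra hn
    simp only [Set.mem_union, Set.mem_ofPred_eq, not_or, not_not] at hn
    obtain ⟨h2', ha', hb'⟩ := hn
    have h3 := ((hODD K v h2' a ha').1 b 0 (by rw [hb', WithZero.exp_zero])).1 (by decide)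
    exact hv h3
  · right
    exact ⟨φ, rfl⟩

end Pool.Agent.H44.QCL
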